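import Pool.Agent.helper27.AP7.DiscreteFailsAP

/-!
# The approximation property passes from `F_p(M)` to `F_1(M)`

Let `0 < p ≤ 1`. If the Lipschitz free `p`-space over `M` has AP, then so does the Lipschitz free
Banach space over `M`. The canonical map `J : F_p(M) → F_1(M)` transports finite rank operators. A
compact set of `F_1(M)` is covered by series of combinations of molecules, whose scaled copies in
`F_p(M)` form a sequence which tends to `0`.
-/

set_option autoImplicit false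

open Set Filter Topology Metric

namespace Pool.Agent.helper47.AP7

open Pool.Agent.helper27.AP7.ScatteredAP

universe u

/-- type synonym which carries the `p`-th power of the norm -/
def PP (Y : Type u) : Type u := Y

instance instAddCommGroupPP {Y : Type u} [h : AddCommGroup Y] : AddCommGroup (PP Y) := h

instance instModulePP {Y : Type u} [AddCommGroup Y] [h : Module ℝ Y] : Module ℝ (PP Y) := h

/-- the `p`-th power of the norm -/
noncomputable def ppNorm (p : ℝ) (hp : 0 < p) (hp1 : p ≤ 1) (Y : Type u) [NormedAddCommGroup Y] :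
    AddGroupNorm (PP Y) where
  toFun := fun y => ‖(show Y from y)‖ ^ p
  map_zero' := by
    show ‖(0 : Y)‖ ^ p = 0
    rw [norm_zero, Real.zero_rpow hp.ne']
  add_le' := fun x y => by
    show ‖(show Y from x) + (show Y from y)‖ ^ p ≤ ‖(show Y from x)‖ ^ p + ‖(show Y from y)‖ ^ p
    exact (Real.rpow_le_rpow (norm_nonneg _) (norm_add_le _ _) hp.le).trans
      (Real.rpow_add_le_add_rpow (norm_nonneg _) (norm_nonneg _) hp.le hp1)
  neg' := fun x => by
    show ‖-(show Y from x)‖ ^ p = ‖(show Y from x)‖ ^ p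
    rw [norm_neg]
  eq_zero_of_map_eq_zero' := fun x h => by
    have h1 : ‖(show Y from x)‖ ^ p = 0 := h
    rw [Real.rpow_eq_zero (norm_nonneg _) hp.ne', norm_eq_zero] at h1
    exact h1

/-- A Banach space with the `p`-th power of its norm is a `p`-Banach space. -/
theorem exists_pow {p : ℝ} (hp : 0 < p) (hp1 : p ≤ 1) (Y : Type u) [NormedAddCommGroup Y]
    [NormedSpace ℝ Y] [CompleteSpace Y] :
    ∃ (Z : Type u) (_ : NormedAddCommGroup Z) (_ : Module ℝ Z) (_ : CompleteSpace Z)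
      (_ : PNormed p Z) (e : Y ≃ₗ[ℝ] Z), ∀ y, ‖e y‖ = ‖y‖ ^ p := by
  let _ : NormedAddCommGroup (PP Y) := (ppNorm p hp hp1 Y).toNormedAddCommGroup
  have hn : ∀ y : PP Y, ‖y‖ = ‖(show Y from y)‖ ^ p := fun y => rfl
  let e : Y ≃ₗ[ℝ] PP Y := LinearEquiv.refl ℝ Y
  have he : ∀ y, ‖e y‖ = ‖y‖ ^ p := fun y => rfl
  refine ⟨PP Y, inferInstance, inferInstance, ?_, ?_, e, he⟩
  · refine Metric.complete_of_cauchySeq_tendsto fun s hs => ?_
    have h1 : CauchySeq (fun n => e.symm (s n)) := by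
      rw [Metric.cauchySeq_iff] at hs ⊢
      intro ε hε
      obtain ⟨N, hN⟩ := hs (ε ^ p) (by positivity)
      refine ⟨N, fun m hm n hn' => ?_⟩
      have h2 := hN m hm n hn'
      rw [dist_eq_norm] at h2 ⊢
      have h3 : ‖s m - s n‖ = ‖e.symm (s m) - e.symm (s n)‖ ^ p := by
        rw [← he, map_sub, e.apply_symm_apply, e.apply_symm_apply]
      rw [h3] at h2
      exact (Real.rpow_lt_rpow_iff (norm_nonneg _) hε.le hp).1 h2
    obtain ⟨a, ha⟩ := cauchySeq_tendsto_of_complete h1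
    refine ⟨e a, ?_⟩
    rw [tendsto_iff_norm_sub_tendsto_zero] at ha ⊢
    have h4 : ∀ n, ‖s n - e a‖ = ‖e.symm (s n) - a‖ ^ p := by
      intro n
      rw [← he, map_sub, e.apply_symm_apply]
    simp_rw [h4]
    have h5 := ha.rpow_const (p := p) (Or.inr hp.le)
    rwa [Real.zero_rpow hp.ne'] at h5
  · constructor
    intro a x
    show ‖a • (show Y from x)‖ ^ p = |a| ^ p * ‖(show Y from x)‖ ^ p
    rw [norm_smul, Real.norm_eq_abs, Real.mul_rpow (abs_nonneg _) (norm_nonneg _)]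

section

variable {p : ℝ} {M : Type u} [MetricSpace M] {o : M} {X : Type u} [NormedAddCommGroup X]
  [Module ℝ X] {δ : M → X} {Y : Type u} [NormedAddCommGroup Y] [NormedSpace ℝ Y] {δ₁ : M → Y}

/-- the canonical map -/
theorem exists_J (hp : 0 < p) (hp1 : p ≤ 1) (hX : IsLipFree p o δ) (hY : IsLipFree 1 o δ₁) :
    ∃ J : X →ₗ[ℝ] Y, (∀ x, J (δ x) = δ₁ x) ∧ ∀ v, ‖J v‖ ^ p ≤ ‖v‖ := by
  have := hY.complete
  obtain ⟨Z, hZ1, hZ2, hZ3, hZ4, e, he⟩ := exists_pow hp hp1 Y
  obtain ⟨T, ⟨hT1, hT2⟩, -⟩ := hX.exists_lift Z (fun x => e (δ₁ x)) 1 zero_le_one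
    (by rw [hY.map_base, map_zero]) (fun x y => by
      rw [← map_sub, he, hY.norm_sub, Real.rpow_one, one_mul])
  refine ⟨e.symm.toLinearMap ∘ₗ T.toLinearMap, fun x => ?_, fun v => ?_⟩
  · show e.symm (T (δ x)) = δ₁ x
    rw [hT1, e.symm_apply_apply]
  · have h1 := hT2 v
    rw [Real.one_rpow, one_mul] at h1
    show ‖e.symm (T v)‖ ^ p ≤ ‖v‖
    rw [← he, e.apply_symm_apply]
    exact h1

/-- continuous linear maps of `p`-normed spaces are bounded -/
theorem exists_bound (hp : 0 < p) (hX : PNormed p X) (T : X →L[ℝ] X) :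
    ∃ C > 0, ∀ v, ‖T v‖ ≤ C * ‖v‖ := by
  have h0 : Tendsto T (𝓝 0) (𝓝 0) := by
    have := T.continuous.tendsto 0
    rwa [map_zero] at this
  obtain ⟨r, hr, hrT⟩ := Metric.tendsto_nhds_nhds.1 h0 1 one_pos
  refine ⟨2 / r, by positivity, fun v => ?_⟩
  by_cases hv : v = 0
  · rw [hv, map_zero, norm_zero, mul_zero]
  have hv' : 0 < ‖v‖ := norm_pos_iff.2 hv
  set a : ℝ := (r / 2 / ‖v‖) ^ (1 / p) with ha
  have ha0 : 0 < a := by positivity
  have hap : |a| ^ p = r / 2 / ‖v‖ := by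
    rw [abs_of_pos ha0, ha, ← Real.rpow_mul (by positivity), one_div_mul_cancel hp.ne',
      Real.rpow_one]
  have h1 : ‖a • v‖ = r / 2 := by
    rw [hX.norm_smul, hap]
    field_simp
  have h2 := hrT (x := a • v) (by
    rw [dist_zero_right, h1]
    linarith)
  rw [dist_zero_right, map_smul, hX.norm_smul, hap] at h2
  rw [div_mul_eq_mul_div, le_div_iff₀ hr]
  rw [div_mul_eq_mul_div, div_lt_one hv'] at h2
  linarith

/-- transport of finite rank operators -/
theorem exists_transport (hp : 0 < p) (hX : IsLipFree p o δ) (hY : IsLipFree 1 o δ₁)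
    (J : X →ₗ[ℝ] Y) (hJ : ∀ x, J (δ x) = δ₁ x) (hJn : ∀ v, ‖J v‖ ^ p ≤ ‖v‖) (T : X →L[ℝ] X)
    (hT : FiniteDimensional ℝ (LinearMap.range (T : X →ₗ[ℝ] X))) :
    ∃ T' : Y →L[ℝ] Y, FiniteDimensional ℝ (LinearMap.range (T' : Y →ₗ[ℝ] Y)) ∧
      ∀ v, T' (J v) = J (T v) := by
  have := hY.complete
  have hYp := hY.pnormed
  have hXp := hX.pnormed
  obtain ⟨C, hC, hCT⟩ := exists_bound hp hXp T
  have hJle : ∀ v b, 0 ≤ b → ‖v‖ ≤ b ^ p → ‖J v‖ ≤ b := fun v b hb h =>
    (Real.rpow_le_rpow_iff (norm_nonneg _) hb hp).1 ((hJn v).trans h)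
  obtain ⟨T', ⟨hT'1, -⟩, -⟩ := hY.exists_lift Y (fun x => J (T (δ x))) (C ^ (1 / p))
    (by positivity) (by rw [hX.map_base, map_zero, map_zero]) (fun x y => by
      rw [Real.rpow_one, ← map_sub, ← map_sub]
      apply hJle _ _ (by positivity)
      rw [Real.mul_rpow (by positivity) dist_nonneg, ← Real.rpow_mul hC.le,
        one_div_mul_cancel hp.ne', Real.rpow_one]
      refine (hCT _).trans ?_
      rw [hX.norm_sub])
  have hJc : Continuous J := by
    refine continuous_of_continuousAt_zero J.toAddMonoidHom ?_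
    show ContinuousAt J 0
    rw [ContinuousAt, map_zero, Metric.tendsto_nhds_nhds]
    intro ε hε
    refine ⟨ε ^ p, by positivity, fun {v} hv => ?_⟩
    rw [dist_zero_right] at hv ⊢
    exact (Real.rpow_lt_rpow_iff (norm_nonneg _) hε.le hp).1 ((hJn v).trans_lt hv)
  have hTJ : ∀ v, T' (J v) = J (T v) := by
    have hcl : IsClosed {v | T' (J v) = J (T v)} :=
      isClosed_eq (T'.continuous.comp hJc) (hJc.comp T.continuous)
    have hsp : (Submodule.span ℝ (range δ) : Set X) ⊆ {v | T' (J v) = J (T v)} := by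
      intro v hv
      show T' (J v) = J (T v)
      induction hv using Submodule.span_induction with
      | mem v h =>
          obtain ⟨x, rfl⟩ := h
          rw [hJ, hT'1]
      | zero => simp
      | add v w _ _ h1 h2 => rw [map_add, map_add, map_add, map_add, h1, h2]
      | smul a v _ h1 => rw [map_smul, map_smul, map_smul, map_smul, h1]
    intro v
    have : (univ : Set X) ⊆ {v | T' (J v) = J (T v)} := by
      rw [← hX.dense_span.closure_eq]
      exact hcl.closure_subset_iff.2 hsp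
    exact this (mem_univ v)
  refine ⟨T', ?_, hTJ⟩
  -- the range of `T'` lies in the finite dimensional space `J (range T)`
  let W : Submodule ℝ Y := (LinearMap.range (T : X →ₗ[ℝ] X)).map J
  have hW : FiniteDimensional ℝ W := inferInstance
  have hWc : IsClosed (W : Set Y) := W.closed_of_finiteDimensional
  have hle : LinearMap.range (T' : Y →ₗ[ℝ] Y) ≤ W := by
    rintro _ ⟨y, rfl⟩
    have hcl : IsClosed (T' ⁻¹' (W : Set Y)) := hWc.preimage T'.continuous
    have hsp : (Submodule.span ℝ (range δ₁) : Set Y) ⊆ T' ⁻¹' (W : Set Y) := by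
      intro v hv
      have : Submodule.span ℝ (range δ₁) ≤ W.comap (T' : Y →ₗ[ℝ] Y) := by
        rw [Submodule.span_le]
        rintro _ ⟨x, rfl⟩
        show T' (δ₁ x) ∈ W
        rw [hT'1]
        exact ⟨T (δ x), ⟨δ x, rfl⟩, rfl⟩
      exact this hv
    have : (univ : Set Y) ⊆ T' ⁻¹' (W : Set Y) := by
      rw [← hY.dense_span.closure_eq]
      exact hcl.closure_subset_iff.2 hsp
    exact this (mem_univ y)
  exact Submodule.finiteDimensional_of_le hle

/-- the scaled molecule of `F_p(M)` -/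
noncomputable def smol (δ : M → X) (s : ℝ) (q : M × M) : X :=
  s • ((dist q.1 q.2)⁻¹ • (δ q.1 - δ q.2))

theorem norm_smol (hp : 0 < p) (hX : IsLipFree p o δ) {s : ℝ} (hs : 0 ≤ s) (q : M × M) :
    ‖smol δ s q‖ ≤ s ^ p := by
  rw [smol, hX.pnormed.norm_smul, hX.pnormed.norm_smul, hX.norm_sub, abs_of_nonneg hs,
    abs_of_nonneg (inv_nonneg.2 dist_nonneg), ← Real.mul_rpow (inv_nonneg.2 dist_nonneg)
      dist_nonneg]
  have h1 : ((dist q.1 q.2)⁻¹ * dist q.1 q.2) ^ p ≤ 1 := by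
    apply Real.rpow_le_one (by positivity) _ hp.le
    by_cases h : dist q.1 q.2 = 0
    · rw [h]; norm_num
    · rw [inv_mul_cancel₀ h]
  calc s ^ p * ((dist q.1 q.2)⁻¹ * dist q.1 q.2) ^ p ≤ s ^ p * 1 := by gcongr
    _ = s ^ p := mul_one _

/-- the estimate on a combination of molecules -/
theorem est (hp : 0 < p) (J : X →ₗ[ℝ] Y) (hJ : ∀ x, J (δ x) = δ₁ x)
    (hJn : ∀ v, ‖J v‖ ^ p ≤ ‖v‖) (T : X →L[ℝ] X) (T' : Y →L[ℝ] Y)
    (hTJ : ∀ v, T' (J v) = J (T v)) (c : (M × M) →₀ ℝ) {s η : ℝ} (hs : 0 < s) (hη : 0 ≤ η)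
    (h : ∀ q ∈ c.support, ‖T (smol δ s q) - smol δ s q‖ ≤ η ^ p) :
    ‖T' (Finsupp.linearCombination ℝ δ₁ (mol c)) - Finsupp.linearCombination ℝ δ₁ (mol c)‖ ≤
      cost 1 c * (η / s) := by
  have h1 : ∀ q ∈ c.support, ‖T' (δ₁ q.1 - δ₁ q.2) - (δ₁ q.1 - δ₁ q.2)‖ ≤
      dist q.1 q.2 * (η / s) := by
    intro q hq
    by_cases h0 : dist q.1 q.2 = 0
    · rw [dist_eq_zero] at h0
      rw [h0, sub_self, map_zero, sub_zero, norm_zero, dist_self, zero_mul]
    have h2 : ‖J (T (smol δ s q) - smol δ s q)‖ ≤ η :=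
      (Real.rpow_le_rpow_iff (norm_nonneg _) hη hp).1 ((hJn _).trans (h q hq))
    have h3 : J (smol δ s q) = s • ((dist q.1 q.2)⁻¹ • (δ₁ q.1 - δ₁ q.2)) := by
      rw [smol, map_smul, map_smul, map_sub, hJ, hJ]
    have h4 : δ₁ q.1 - δ₁ q.2 = (dist q.1 q.2 / s) • J (smol δ s q) := by
      rw [h3, smul_smul, smul_smul]
      have : dist q.1 q.2 / s * (s * (dist q.1 q.2)⁻¹) = 1 := by field_simp
      rw [← mul_assoc] at this
      rw [this, one_smul]
    rw [h4, map_smul, hTJ, ← smul_sub, ← map_sub, norm_smul, Real.norm_eq_abs,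
      abs_of_nonneg (by positivity)]
    calc dist q.1 q.2 / s * ‖J (T (smol δ s q) - smol δ s q)‖ ≤ dist q.1 q.2 / s * η := by
          gcongr
      _ = _ := by ring
  rw [linComb_mol, map_sum, ← Finset.sum_sub_distrib]
  calc ‖∑ q ∈ c.support, (T' (c q • (δ₁ q.1 - δ₁ q.2)) - c q • (δ₁ q.1 - δ₁ q.2))‖
      ≤ ∑ q ∈ c.support, ‖T' (c q • (δ₁ q.1 - δ₁ q.2)) - c q • (δ₁ q.1 - δ₁ q.2)‖ :=
        norm_sum_le _ _
    _ ≤ ∑ q ∈ c.support, |c q| ^ (1 : ℝ) * dist q.1 q.2 ^ (1 : ℝ) * (η / s) := by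
        refine Finset.sum_le_sum fun q hq => ?_
        rw [map_smul, ← smul_sub, norm_smul, Real.norm_eq_abs, Real.rpow_one, Real.rpow_one,
          mul_assoc]
        exact mul_le_mul_of_nonneg_left (h1 q hq) (abs_nonneg _)
    _ = cost 1 c * (η / s) := by
        rw [← Finset.sum_mul]
        rfl

/-- **AP passes from `F_p(M)` to `F_1(M)`.** -/
theorem hasAP_one (hp : 0 < p) (hp1 : p ≤ 1) (hX : IsLipFree p o δ) (hY : IsLipFree 1 o δ₁)
    (hn : ∀ v : M →₀ ℝ, ‖Finsupp.linearCombination ℝ δ₁ v‖ = fnorm 1 o v) (hAP : HasAP X) :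
    HasAP Y := by
  classical
  intro K hK ε hε
  obtain ⟨J, hJ, hJn⟩ := exists_J hp hp1 hX hY
  set L : (M →₀ ℝ) →ₗ[ℝ] Y := Finsupp.linearCombination ℝ δ₁ with hL
  have hLd : DenseRange L := by
    have h1 : (range L : Set Y) = (Submodule.span ℝ (range δ₁) : Set Y) := by
      rw [hL, ← Finsupp.range_linearCombination]
      rfl
    rw [DenseRange, h1]
    exact hY.dense_span
  -- finite nets
  have hnet : ∀ n : ℕ, ∃ G : Finset (M →₀ ℝ), ∀ y ∈ K, ∃ v ∈ G, ‖y - L v‖ < (1 / 4) ^ n := by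
    intro n
    have hr : (0 : ℝ) < (1 / 4) ^ n := by positivity
    obtain ⟨t, ht⟩ := hK.elim_finite_subcover (fun v : M →₀ ℝ => ball (L v) ((1 / 4) ^ n))
      (fun v => isOpen_ball) (fun y _ => by
        obtain ⟨v, hv⟩ := hLd.exists_dist_lt y hr
        exact mem_iUnion.2 ⟨v, hv⟩)
    refine ⟨t, fun y hy => ?_⟩
    obtain ⟨v, hv⟩ := mem_iUnion.1 (ht hy)
    obtain ⟨hvt, hv⟩ := mem_iUnion.1 hv
    exact ⟨v, hvt, by rwa [← dist_eq_norm]⟩
  choose G hG using hnet
  obtain ⟨R0, hR0⟩ := hK.isBounded.exists_norm_le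
  set R : ℝ := |R0| + 9 with hR
  have hRpos : 0 < R := by positivity
  let G' : ℕ → Finset (M →₀ ℝ) := fun n => Nat.casesOn n {0} G
  -- representations
  have hrep : ∀ (w : M →₀ ℝ) (b : ℝ), ∃ c : (M × M) →₀ ℝ, ‖L w‖ < b →
      L w = L (mol c) ∧ cost 1 c < b := by
    intro w b
    by_cases h : ‖L w‖ < b
    · obtain ⟨c, t, hc, hc'⟩ := exists_rep (p := 1) (o := o) w (sub_pos.2 h)
      refine ⟨c, fun _ => ⟨?_, ?_⟩⟩
      · nth_rewrite 1 [hc]
        rw [map_add, hL, Finsupp.linearCombination_single, hY.map_base, smul_zero, add_zero]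
      · rw [← hn] at hc'
        exact hc'.trans_eq (add_sub_cancel _ _)
    · exact ⟨0, fun h' => absurd h' h⟩
  choose c hc using hrep
  let A : ℕ → Finset X := fun n => ((G' n ×ˢ G' (n + 1)).biUnion
    (fun z => (c (z.2 - z.1) (R * (1 / 4) ^ n)).support)).image (smol δ ((1 / 2) ^ n))
  have hAn : ∀ n, ∀ z ∈ A n, ‖z‖ ≤ ((1 / 2 : ℝ) ^ n) ^ p := by
    intro n z hz
    obtain ⟨q, -, rfl⟩ := Finset.mem_image.1 hz
    exact norm_smol hp hX (by positivity) q
  have hK' : IsCompact (insert 0 (range fun z : (Σ n, A n) => (z.2 : X))) := by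
    apply Tendsto.isCompact_insert_range_of_cofinite
    rw [tendsto_zero_iff_norm_tendsto_zero]
    have hlim : Tendsto (fun n : ℕ => ((1 / 2 : ℝ) ^ n) ^ p) atTop (𝓝 0) := by
      have h1 : Tendsto (fun n : ℕ => (1 / 2 : ℝ) ^ n) atTop (𝓝 0) :=
        tendsto_pow_atTop_nhds_zero_of_lt_one (by norm_num) (by norm_num)
      have h2 := h1.rpow_const (p := p) (Or.inr hp.le)
      rwa [Real.zero_rpow hp.ne'] at h2
    refine squeeze_zero (fun z => norm_nonneg _) (fun z => hAn z.1 z.2 z.2.2) ?_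
    refine hlim.comp ?_
    rw [← Nat.cofinite_eq_atTop]
    refine Filter.Tendsto.cofinite_of_finite_preimage_singleton fun n => ?_
    have : (Sigma.fst ⁻¹' {n} : Set (Σ n, A n)) = range (Sigma.mk n) := by
      ext ⟨m, z⟩
      simp only [mem_preimage, mem_singleton_iff, mem_range]
      constructor
      · rintro rfl
        exact ⟨z, rfl⟩
      · rintro ⟨w, hw⟩
        exact (congrArg Sigma.fst hw).symm
    rw [this]
    exact finite_range _
  set η : ℝ := ε / (4 * R) with hη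
  have hηpos : 0 < η := by positivity
  obtain ⟨T, hTf, hT⟩ := hAP _ hK' (η ^ p) (by positivity)
  obtain ⟨T', hT'f, hT'⟩ := exists_transport hp hX hY J hJ hJn T hTf
  refine ⟨T', hT'f, fun y hy => ?_⟩
  choose g hg hg' using fun n => hG n y hy
  let g' : ℕ → (M →₀ ℝ) := fun n => Nat.casesOn n 0 g
  have hg'G : ∀ n, g' n ∈ G' n := by
    intro n
    cases n with
    | zero => exact Finset.mem_singleton_self 0
    | succ n => exact hg n
  have hdiff : ∀ n, ‖L (g' (n + 1) - g' n)‖ < R * (1 / 4) ^ n := by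
    intro n
    cases n with
    | zero =>
        show ‖L (g 0 - 0)‖ < R * (1 / 4) ^ 0
        rw [sub_zero, pow_zero, mul_one]
        have h1 := hg' 0
        rw [pow_zero] at h1
        have h2 : ‖L (g 0)‖ ≤ ‖y‖ + ‖y - L (g 0)‖ := by
          have := norm_sub_le y (y - L (g 0))
          rwa [sub_sub_cancel] at this
        have h3 := (hR0 y hy).trans (le_abs_self R0)
        rw [hR]
        linarith
    | succ n =>
        show ‖L (g (n + 1) - g n)‖ < R * (1 / 4) ^ (n + 1)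
        have h1 := hg' n
        have h2 := hg' (n + 1)
        have h3 : ‖L (g (n + 1) - g n)‖ ≤ ‖y - L (g n)‖ + ‖y - L (g (n + 1))‖ := by
          have := norm_sub_le (y - L (g n)) (y - L (g (n + 1)))
          rwa [sub_sub_sub_cancel_left, ← map_sub] at this
        have h4 : (9 : ℝ) * (1 / 4) ^ (n + 1) ≤ R * (1 / 4) ^ (n + 1) := by
          gcongr
          rw [hR]
          linarith [abs_nonneg R0]
        have h5 : (0 : ℝ) < (1 / 4) ^ n := by positivity
        rw [pow_succ] at h2 h4 ⊢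
        linarith
  have hstep : ∀ n, ‖T' (L (g' (n + 1) - g' n)) - L (g' (n + 1) - g' n)‖ ≤
      R * η * (1 / 2) ^ n := by
    intro n
    obtain ⟨h1, h2⟩ := hc (g' (n + 1) - g' n) (R * (1 / 4) ^ n) (hdiff n)
    rw [h1]
    refine (est hp J hJ hJn T T' hT' _ (s := (1 / 2) ^ n) (η := η) (by positivity) hηpos.le
      fun q hq => ?_).trans ?_
    · refine (hT _ (Or.inr ⟨⟨n, ⟨smol δ ((1 / 2) ^ n) q, ?_⟩⟩, rfl⟩)).le
      refine Finset.mem_image_of_mem _ (Finset.mem_biUnion.2 ⟨(g' n, g' (n + 1)), ?_, hq⟩)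
      exact Finset.mem_product.2 ⟨hg'G n, hg'G (n + 1)⟩
    · calc cost 1 (c (g' (n + 1) - g' n) (R * (1 / 4) ^ n)) * (η / (1 / 2) ^ n)
          ≤ (R * (1 / 4) ^ n) * (η / (1 / 2) ^ n) := by gcongr
        _ = R * η * ((1 / 4) ^ n / (1 / 2) ^ n) := by ring
        _ = R * η * (1 / 2) ^ n := by
            rw [← div_pow]
            norm_num
  have hsum : ∀ N, ‖T' (L (g' N)) - L (g' N)‖ ≤ R * η * (2 - 2 * (1 / 2) ^ N) := by
    intro N
    induction N with
    | zero =>
        show ‖T' (L 0) - L 0‖ ≤ _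
        simp
    | succ N ih =>
        have h1 : T' (L (g' (N + 1))) - L (g' (N + 1)) =
            (T' (L (g' N)) - L (g' N)) +
              (T' (L (g' (N + 1) - g' N)) - L (g' (N + 1) - g' N)) := by
          rw [map_sub L, map_sub T']
          abel
        rw [h1]
        refine (norm_add_le _ _).trans ((add_le_add ih (hstep N)).trans (le_of_eq ?_))
        rw [pow_succ]
        ring
  have hlim : Tendsto (fun N => L (g' N)) atTop (𝓝 y) := by
    rw [← tendsto_add_atTop_iff_nat 1]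
    show Tendsto (fun N => L (g N)) atTop (𝓝 y)
    rw [tendsto_iff_norm_sub_tendsto_zero]
    refine squeeze_zero (fun _ => norm_nonneg _) (fun N => ?_)
      (tendsto_pow_atTop_nhds_zero_of_lt_one (r := (1 / 4 : ℝ)) (by norm_num) (by norm_num))
    rw [norm_sub_rev]
    exact (hg' N).le
  have hfin : ‖T' y - y‖ ≤ R * η * 2 := by
    have h1 : Tendsto (fun N => ‖T' (L (g' N)) - L (g' N)‖) atTop (𝓝 ‖T' y - y‖) :=
      (((T'.continuous.tendsto y).comp hlim).sub hlim).norm
    refine le_of_tendsto h1 (Eventually.of_forall fun N => (hsum N).trans ?_)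
    have h2 : (0 : ℝ) < (1 / 2) ^ N := by positivity
    have h3 : 0 < R * η := by positivity
    nlinarith
  have hval : R * η * 2 = ε / 2 := by
    rw [hη]
    field_simp
    ring
  rw [hval] at hfin
  linarith

end

end Pool.Agent.helper47.AP7
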