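import Pool.Agent.helper47.AP7.Envelope

/-!
# A countable discrete metric space all whose Lipschitz free `p`-spaces fail AP

The space `DS d` of `DiscreteFailsAP`: its Lipschitz free Banach space fails AP, and AP passes from
`F_p` to `F_1` (`hasAP_one`).
-/

set_option autoImplicit false

open Filter Topology Set

namespace Pool.Agent.helper47.AP7

open Pool.Agent.helper27.AP7.ScatteredAP

universe u

/-- a Lipschitz free Banach space over `M`, in both languages, with the formula for the norm -/
theorem exists_both (M : Type u) [MetricSpace M] (o : M) :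
    ∃ (X : Type u) (_ : NormedAddCommGroup X) (_ : NormedSpace ℝ X) (δ : M → X),
      Pool.Agent.helper27.AP7.DiscreteFailsAP.IsLipschitzFree o δ ∧ IsLipFree 1 o δ ∧
      ∀ v : M →₀ ℝ, ‖Finsupp.linearCombination ℝ δ v‖ = fnorm 1 o v := by
  obtain ⟨X, hX1, hX2, δ, h, hn⟩ := exists_isLipFree_norm (p := 1) zero_lt_one le_rfl M o
  have hns : ∀ (a : ℝ) (x : X), ‖a • x‖ = |a| * ‖x‖ := by
    intro a x
    have := h.pnormed.norm_smul a x
    rwa [Real.rpow_one] at this
  let inst : NormedSpace ℝ X :=
    { hX2 with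
      norm_smul_le := fun a x => by rw [hns, Real.norm_eq_abs] }
  refine ⟨X, hX1, inst, δ, ⟨h.complete, h.map_base, ?_, h.dense_span, ?_⟩, h, hn⟩
  · apply Isometry.of_dist_eq
    intro x y
    rw [dist_eq_norm, h.norm_sub, Real.rpow_one]
  · intro Y _ _ _ f L hfo hf
    have hY : PNormed 1 Y := ⟨fun a x => by
      rw [norm_smul, Real.rpow_one, Real.norm_eq_abs]⟩
    obtain ⟨T, ⟨hT1, hT2⟩, hTu⟩ := h.exists_lift Y f L L.coe_nonneg hfo (fun x y => by
      rw [Real.rpow_one, ← dist_eq_norm]
      exact hf.dist_le_mul x y)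
    simp only [Real.rpow_one] at hT2 hTu
    refine ⟨T, ⟨hT1, ?_⟩, ?_⟩
    · exact ContinuousLinearMap.opNorm_le_bound _ L.coe_nonneg hT2
    · rintro T' ⟨hT'1, hT'2⟩
      exact hTu T' ⟨hT'1, fun v => (T'.le_opNorm v).trans (by gcongr)⟩

/-- There is a countable discrete metric space whose Lipschitz free `p`-spaces all fail AP. -/
theorem exists_discrete : ∃ (M : Type) (_ : MetricSpace M) (_ : DiscreteTopology M)
    (_ : Countable M) (o : M), ∀ (p : ℝ), 0 < p → p ≤ 1 →
    ∀ (X : Type) [NormedAddCommGroup X] [Module ℝ X] (δ : M → X), IsLipFree p o δ →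
      ¬ HasAP X := by
  obtain ⟨V, hV1, hV2, x, ι, f, A, w, hx, hw, hws, hf, hA, hfin, hrel, htr⟩ :=
    Pool.Agent.helper27.Enflo.exists_data
  have hsep : TopologicalSpace.SeparableSpace V := by
    rw [← TopologicalSpace.isSeparable_univ_iff]
    have h1 : TopologicalSpace.IsSeparable (range x) := (countable_range x).isSeparable
    have h2 := h1.span (R := ℝ)
    rw [hx] at h2
    simpa using h2
  have hd := TopologicalSpace.denseRange_denseSeq V
  set d := TopologicalSpace.denseSeq V with hdd
  let o : Pool.Agent.helper27.AP7.DiscreteFailsAP.DS d :=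
    ⟨(d 0, 1 / (((0 : ℕ) : ℝ) + 1)), 0, 0, le_rfl, rfl⟩
  refine ⟨Pool.Agent.helper27.AP7.DiscreteFailsAP.DS d, inferInstance,
    Pool.Agent.helper27.AP7.DiscreteFailsAP.DS_discrete d,
    (Pool.Agent.helper27.AP7.DiscreteFailsAP.DS_countable d).to_subtype, o, ?_⟩
  intro p hp hp1 X _ _ δ hδ hAP
  obtain ⟨Y, hY1, hY2, δ₁, hfree, hY, hn⟩ :=
    exists_both (Pool.Agent.helper27.AP7.DiscreteFailsAP.DS d) o
  exact Pool.Agent.helper27.AP7.DiscreteFailsAP.not_hasAP_of_data x hx f A w hw hws hf hA hfin
    hrel htr d hd o δ₁ hfree (hasAP_one hp hp1 hδ hY hn hAP)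

/-- The completion of a complete discrete metric space is scattered. -/
theorem isScattered_of_complete {M : Type u} [MetricSpace M] [CompleteSpace M]
    [DiscreteTopology M] : IsScattered (UniformSpace.Completion M) := by
  have hsurj : ∀ z : UniformSpace.Completion M, ∃ x : M, (x : UniformSpace.Completion M) = z := by
    have h1 : IsClosed (range ((↑) : M → UniformSpace.Completion M)) :=
      (UniformSpace.Completion.isUniformEmbedding_coe M).isClosedEmbedding.isClosed_range
    have h2 : DenseRange ((↑) : M → UniformSpace.Completion M) :=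
      UniformSpace.Completion.denseRange_coe
    intro z
    have h3 : z ∈ closure (range ((↑) : M → UniformSpace.Completion M)) := h2 z
    rwa [h1.closure_eq] at h3
  intro S hS
  obtain ⟨a, ha⟩ := hS
  obtain ⟨x, rfl⟩ := hsurj a
  have hopen : IsOpen ({x} : Set M) := isOpen_discrete _
  obtain ⟨U, hU, hUx⟩ := (UniformSpace.Completion.isUniformInducing_coe M).isInducing.isOpen_iff.1
    hopen
  refine ⟨x, ha, U, hU, ?_⟩
  ext z
  obtain ⟨y, rfl⟩ := hsurj z
  constructor
  · rintro ⟨hyU, -⟩
    have : y ∈ ({x} : Set M) := by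
      rw [← hUx]
      exact hyU
    rw [mem_singleton_iff] at this ⊢
    rw [this]
  · intro h
    rw [mem_singleton_iff] at h
    rw [h]
    refine ⟨?_, ha⟩
    have : x ∈ (fun z : M => (z : UniformSpace.Completion M)) ⁻¹' U := by
      rw [hUx]
      exact mem_singleton x
    exact this

end Pool.Agent.helper47.AP7
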